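import Pool.Agent.Q59.LS.Vec

/-!
# Bases of spaces of products of pairings and determinants
-/

namespace Pool.Agent.Q59.LI

open Finset Pool.Agent.Q59.LS

section general

variable {X : Type} [Fintype X] {W : Type} [AddCommGroup W] [Module ℂ W]

/-- the contraction of a function with values in `W` with a function -/
noncomputable def contract (b : X → ℂ) (x : X → W) : W := ∑ w, b w • x w

lemma contract_sum {J : Type} (A : Finset J) (b : X → ℂ) (f : J → X → W) :
    contract b (∑ j ∈ A, f j) = ∑ j ∈ A, contract b (f j) := by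
  unfold contract
  rw [Finset.sum_comm]
  refine Finset.sum_congr rfl fun w _ => ?_
  rw [Finset.sum_apply, Finset.smul_sum]

lemma contract_smul (b f : X → ℂ) (z : W) :
    contract b (fun w => f w • z) = (∑ w, b w * f w) • z := by
  unfold contract
  rw [Finset.sum_smul]
  exact Finset.sum_congr rfl fun w _ => by rw [smul_smul]

/-- coordinates with respect to linearly independent functions are contractions -/
lemma exists_coord {J : Type} [Finite J] [DecidableEq J] {b : J → X → ℂ} (hb : LinearIndependent ℂ b) :
    ∃ c : J → X → ℂ, ∀ j k, ∑ w, c j w * b k w = if j = k then 1 else 0 := by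
  have := Fintype.ofFinite J
  classical
  obtain ⟨f, hf⟩ := (Finsupp.linearCombination ℂ b).exists_leftInverse_of_injective
    (LinearMap.ker_eq_bot.mpr hb)
  refine ⟨fun j w => f (Pi.single w 1) j, fun j k => ?_⟩
  have h1 : f (b k) = Finsupp.single k 1 := by
    have h2 := LinearMap.congr_fun hf (Finsupp.single k 1)
    rw [LinearMap.comp_apply, Finsupp.linearCombination_single, one_smul] at h2
    exact h2
  have h3 : b k = ∑ w, b k w • (Pi.single w (1 : ℂ) : X → ℂ) := by
    funext v
    rw [Finset.sum_apply]
    rw [Finset.sum_eq_single v]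
    · simp
    · intro w _ hw
      rw [Pi.smul_apply, Pi.single_eq_of_ne (Ne.symm hw)]
      simp
    · intro h; exact absurd (mem_univ v) h
  rw [h3, map_sum] at h1
  have h4 := DFunLike.congr_fun h1 j
  rw [Finsupp.coe_finsetSum, Finset.sum_apply, Finsupp.single_apply] at h4
  have h5 : (if j = k then (1 : ℂ) else 0) = if k = j then 1 else 0 := by
    by_cases h : j = k
    · rw [if_pos h, if_pos h.symm]
    · rw [if_neg h, if_neg (Ne.symm h)]
  rw [h5, ← h4]
  refine Finset.sum_congr rfl fun w _ => ?_
  rw [map_smul, Finsupp.smul_apply, smul_eq_mul, mul_comm]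

/-- real linearly independent functions have a nondegenerate Gram matrix: if the contractions
of `∑ b • z` with all the `b` lie in a subspace, then so do the `z` -/
lemma mem_of_contract {J : Type} [Fintype J] {b : J → X → ℂ} (hb : LinearIndependent ℂ b)
    (hre : ∀ j w, (starRingEnd ℂ) (b j w) = b j w) {A : Submodule ℂ W} {z : J → W}
    (h : ∀ k, contract (b k) (∑ j, fun w => b j w • z j) ∈ A) (j : J) : z j ∈ A := by
  classical
  -- the Gram matrix
  let G : Matrix J J ℂ := Matrix.of fun j k => ∑ w, b j w * b k w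
  have hG : IsUnit G.det := by
    rw [isUnit_iff_ne_zero]
    intro h0
    obtain ⟨v, hv, hv2⟩ := Matrix.exists_mulVec_eq_zero_iff.mpr h0
    apply hv
    -- the function `f = ∑ v j • b j`
    have h1 : ∑ w, (starRingEnd ℂ) (∑ j, v j * b j w) * (∑ k, v k * b k w) = 0 := by
      have h2 : ∀ j, ∑ k, G j k * v k = 0 := fun j => by
        have := congrFun hv2 j
        simpa [Matrix.mulVec, dotProduct] using this
      have h3 : ∑ j, (starRingEnd ℂ) (v j) * (∑ k, G j k * v k) = 0 :=
        Finset.sum_eq_zero fun j _ => by rw [h2, mul_zero]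
      rw [← h3]
      have h4 : ∀ j, (starRingEnd ℂ) (v j) * (∑ k, G j k * v k) =
          ∑ w, ∑ k, (starRingEnd ℂ) (v j) * (b j w) * (b k w * v k) := by
        intro j
        rw [Finset.mul_sum, Finset.sum_comm]
        refine Finset.sum_congr rfl fun k _ => ?_
        change (starRingEnd ℂ) (v j) * ((∑ w, b j w * b k w) * v k) = _
        rw [Finset.sum_mul, Finset.mul_sum]
        exact Finset.sum_congr rfl fun w _ => by ring
      rw [Finset.sum_congr rfl fun j _ => h4 j, Finset.sum_comm]
      refine Finset.sum_congr rfl fun w _ => ?_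
      rw [map_sum, Finset.sum_mul]
      refine Finset.sum_congr rfl fun j _ => ?_
      rw [map_mul, hre, Finset.mul_sum]
      exact Finset.sum_congr rfl fun k _ => by ring
    have h5 : ∀ w, ∑ k, v k * b k w = 0 := by
      have h6 : ∑ w, ‖∑ k, v k * b k w‖ ^ 2 = 0 := by
        have h7 : ∀ w, (starRingEnd ℂ) (∑ j, v j * b j w) * (∑ k, v k * b k w) =
            ((‖∑ k, v k * b k w‖ ^ 2 : ℝ) : ℂ) := by
          intro w
          rw [mul_comm, Complex.mul_conj, Complex.normSq_eq_norm_sq]
        rw [Finset.sum_congr rfl fun w _ => h7 w] at h1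
        exact_mod_cast h1
      intro w
      have h8 := (Finset.sum_eq_zero_iff_of_nonneg fun w _ => by positivity).mp h6 w (mem_univ w)
      exact norm_eq_zero.mp (pow_eq_zero_iff (two_ne_zero)|>.mp h8)
    funext j
    have h9 : ∑ k, v k • b k = 0 := by
      funext w
      rw [Finset.sum_apply, Pi.zero_apply, ← h5 w]
      rfl
    exact Fintype.linearIndependent_iff.mp hb v h9 j
  have h1 : ∀ k, ∑ j, G k j • z j ∈ A := by
    intro k
    have h2 := h k
    rw [contract_sum] at h2
    simp only [contract_smul] at h2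
    exact h2
  have h2 : z j = ∑ k, G⁻¹ j k • ∑ i, G k i • z i := by
    have h3 : ∀ i, ∑ k, G⁻¹ j k * G k i = if j = i then 1 else 0 := by
      intro i
      have h4 := Matrix.nonsing_inv_mul G hG
      have h5 := congrFun (congrFun h4 j) i
      rw [Matrix.mul_apply] at h5
      rw [h5, Matrix.one_apply]
    simp only [Finset.smul_sum, smul_smul]
    rw [Finset.sum_comm]
    simp only [← Finset.sum_smul]
    rw [Finset.sum_eq_single j]
    · rw [h3, if_pos rfl, one_smul]
    · intro i _ hi
      rw [h3, if_neg (Ne.symm hi), zero_smul]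
    · intro h; exact absurd (mem_univ j) h
  rw [h2]
  exact Submodule.sum_mem _ fun k _ => Submodule.smul_mem _ _ (h1 k)

/-- a basis of the span of a set of functions -/
lemma exists_basis (S : Set (X → ℂ)) : ∃ (n : ℕ) (b : Fin n → X → ℂ), LinearIndependent ℂ b ∧
    (∀ j, b j ∈ S) ∧ S ⊆ Submodule.span ℂ (Set.range b) := by
  obtain ⟨B, hB, hspan, hind⟩ := exists_linearIndependent ℂ S
  have hfin : B.Finite := LinearIndependent.setFinite hind
  have := hfin.fintype
  let e := Fintype.equivFin B
  refine ⟨Fintype.card B, fun j => (e.symm j : X → ℂ), hind.comp _ e.symm.injective,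
    fun j => hB (e.symm j).2, fun f hf => ?_⟩
  have h1 : Set.range (fun j => (e.symm j : X → ℂ)) = B := by
    ext f
    constructor
    · rintro ⟨j, rfl⟩
      exact (e.symm j).2
    · intro hf
      exact ⟨e ⟨f, hf⟩, by simp⟩
  rw [h1, hspan]
  exact Submodule.subset_span hf

omit [Fintype X] in
/-- combinations of the `f • z`, `f` in the span of the `b`, are combinations of the `b • z` -/
lemma exists_sum {n : ℕ} {b : Fin n → X → ℂ} {S : Set (X → ℂ)}
    (hS : S ⊆ Submodule.span ℂ (Set.range b)) {A : Submodule ℂ W} {x : X → W}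
    (hx : x ∈ Submodule.span ℂ {y : X → W | ∃ f ∈ S, ∃ z ∈ A, y = fun w => f w • z}) :
    ∃ z : Fin n → W, (∀ j, z j ∈ A) ∧ x = ∑ j, fun w => b j w • z j := by
  induction hx using Submodule.span_induction with
  | mem y hy =>
    obtain ⟨f, hf, z, hz, rfl⟩ := hy
    obtain ⟨c, hc⟩ := (Submodule.mem_span_range_iff_exists_fun ℂ).mp (hS hf)
    refine ⟨fun j => c j • z, fun j => Submodule.smul_mem _ _ hz, ?_⟩
    funext w
    rw [Finset.sum_apply, ← hc, Finset.sum_apply, Finset.sum_smul]
    exact Finset.sum_congr rfl fun j _ => by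
      rw [Pi.smul_apply, smul_eq_mul, smul_smul, mul_comm]
  | zero =>
    refine ⟨fun _ => 0, fun _ => Submodule.zero_mem _, ?_⟩
    funext w
    rw [Finset.sum_apply]
    simp
  | add y y' _ _ h1 h2 =>
    obtain ⟨z, hz, rfl⟩ := h1
    obtain ⟨z', hz', rfl⟩ := h2
    refine ⟨fun j => z j + z' j, fun j => Submodule.add_mem _ (hz j) (hz' j), ?_⟩
    rw [← Finset.sum_add_distrib]
    refine Finset.sum_congr rfl fun j _ => ?_
    funext w
    rw [Pi.add_apply, smul_add]
  | smul a y _ h1 =>
    obtain ⟨z, hz, rfl⟩ := h1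
    refine ⟨fun j => a • z j, fun j => Submodule.smul_mem _ _ (hz j), ?_⟩
    rw [Finset.smul_sum]
    refine Finset.sum_congr rfl fun j _ => ?_
    funext w
    rw [Pi.smul_apply, smul_comm]

end general

end Pool.Agent.Q59.LI
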