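import Pool.Agent.Q59.LI.Iso

/-!
# Intersection numbers on the product

The pairing on the tensors with values in `W` given by a pairing on `W` and the pairings of the letters.
Products of pairings and determinants are mapped by the duality to such products.
-/

namespace Pool.Agent.Q59.LI

open Finset Pool.Agent.Q59.LS

variable {I : Type} {Λ : Labels I} [DecidableEq I] {ε : Letter Λ → ℂ}

/-- all letters of a space occur once in a nonvanishing determinant -/
lemma detOf_mul_prod (i : I) (f : Letter Λ → ℂ) (x : Fin (Λ.dim i) → Letter Λ) :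
    detOf i x * ∏ a, f (x a) = detOf i x * ∏ b, f ⟨i, b⟩ := by
  unfold detOf
  rw [← Matrix.det_diagonal (d := fun a => f (x a)), ← Matrix.det_diagonal (d := fun b => f ⟨i, b⟩),
    mul_comm, ← Matrix.det_mul, ← Matrix.det_mul]
  congr 1
  ext a b
  rw [Matrix.diagonal_mul, Matrix.mul_diagonal, Matrix.of_apply]
  split_ifs with h
  · rw [h, mul_comm]
  · simp

/-- the determinant of the dual letters -/
lemma detOf_dual (i : I) : ∃ δ : ℂ, δ ≠ 0 ∧ ∀ y : Fin (Λ.dim i) → Letter Λ,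
    detOf (Λ.star i) (fun a => y (Fin.cast (Λ.dim_star i) a)) = δ * detOf i fun a => dual (y a) := by
  let θ : Fin (Λ.dim (Λ.star i)) ≃ Fin (Λ.dim i) := finCongr (Λ.dim_star i)
  let π : Equiv.Perm (Fin (Λ.dim i)) := if Λ.orth i = true then Equiv.refl _ else Fin.revPerm
  have hπ : ((Equiv.Perm.sign π : ℤ) : ℂ) * ((Equiv.Perm.sign π : ℤ) : ℂ) = 1 := by
    rw [← Int.cast_mul, ← Units.val_mul, Int.units_mul_self]
    simp
  refine ⟨((Equiv.Perm.sign π : ℤ) : ℂ), fun h => by rw [h] at hπ; simp at hπ, fun y => ?_⟩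
  have h1 : ∀ b, dual (⟨i, b⟩ : Letter Λ) = ⟨Λ.star i, θ.symm (π b)⟩ := by
    intro b
    by_cases h : Λ.orth i = true
    · rw [dual_of_orth (x := ⟨i, b⟩) h]
      refine letter_ext (Λ.orth_star i h).symm ?_
      simp only [θ, π, finCongr_symm, finCongr_apply, Fin.val_cast]
      rw [if_pos h]
      rfl
    · rw [dual_of_not (x := ⟨i, b⟩) h]
      refine letter_ext rfl ?_
      simp only [θ, π, finCongr_symm, finCongr_apply, Fin.val_cast]
      rw [if_neg h]
      rfl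
  have h2 : detOf i (fun a => dual (y a)) = ((Equiv.Perm.sign π : ℤ) : ℂ) *
      detOf (Λ.star i) (fun a => y (Fin.cast (Λ.dim_star i) a)) := by
    unfold detOf
    rw [← Matrix.det_submatrix_equiv_self θ.symm
      (Matrix.of fun a b : Fin (Λ.dim (Λ.star i)) =>
        if y (Fin.cast (Λ.dim_star i) a) = (⟨Λ.star i, b⟩ : Letter Λ) then (1 : ℂ) else 0),
      ← Matrix.det_permute' π]
    congr 1
    ext a b
    rw [Matrix.submatrix_apply, Matrix.submatrix_apply, Matrix.of_apply, Matrix.of_apply]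
    have h3 : (y (Fin.cast (Λ.dim_star i) (θ.symm (id a)))) = y a := rfl
    rw [h3, ← h1]
    have h4 : (dual (y a) = (⟨i, b⟩ : Letter Λ)) ↔ (y a = dual ⟨i, b⟩) := by
      constructor
      · intro h; rw [← h, dual_dual]
      · intro h; rw [h, dual_dual]
    simp only [h4]
  rw [h2, ← mul_assoc, hπ, one_mul]

/-- the data of the dual product -/
def Data.star {κ : Type} (d : Data Λ κ) : Data Λ κ where
  l := d.l
  p := d.p
  μ j := Λ.star (d.μ j)
  ν q := Λ.star (d.ν q)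
  e := (Equiv.sumCongr (Equiv.sigmaCongrRight fun j => finCongr (Λ.dim_star (d.μ j)))
    (Equiv.refl _)).trans d.e

/-- the dual product -/
theorem Data.star_val {κ : Type} [Fintype κ] (hε1 : ∀ x, ε x = 1 ∨ ε x = -1) (d : Data Λ κ) :
    ∃ c : ℂ, c ≠ 0 ∧ ∀ w : κ → Letter Λ,
      d.star.val ε w = c * ((∏ k, ε (w k)) * d.val ε fun k => dual (w k)) := by
  have hsq : ∀ x, ε x * ε x = 1 := fun x => by rcases hε1 x with h | h <;> rw [h] <;> norm_num
  have hε0 : ∀ x, ε x ≠ 0 := fun x h => by have := hsq x; rw [h] at this; simp at this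
  choose δ hδ hdet using fun i => detOf_dual (Λ := Λ) i
  let C : I → ℂ := fun i => ∏ b, ε ⟨Λ.star i, b⟩
  have hC : ∀ i, C i * C i = 1 := fun i => by
    change (∏ b, _) * (∏ b, _) = 1
    rw [← prod_mul_distrib]
    exact prod_eq_one fun b _ => hsq _
  refine ⟨∏ j, (C (d.μ j) * δ (d.μ j)), ?_, fun w => ?_⟩
  · refine prod_ne_zero_iff.mpr fun j _ => mul_ne_zero (fun h => ?_) (hδ _)
    have := hC (d.μ j)
    rw [h] at this
    simp at this
  -- the blocks
  have h1 : ∀ j, detOf (Λ.star (d.μ j)) (fun a => w (d.e (Sum.inl ⟨j, Fin.cast (Λ.dim_star (d.μ j)) a⟩))) =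
      (C (d.μ j) * δ (d.μ j)) * ((∏ a, ε (w (d.e (Sum.inl ⟨j, a⟩)))) *
        detOf (d.μ j) fun a => dual (w (d.e (Sum.inl ⟨j, a⟩)))) := by
    intro j
    have h2 := hdet (d.μ j) fun a => w (d.e (Sum.inl ⟨j, a⟩))
    have h3 := detOf_mul_prod (Λ.star (d.μ j)) ε
      (fun a => w (d.e (Sum.inl ⟨j, Fin.cast (Λ.dim_star (d.μ j)) a⟩)))
    have h4 : ∏ a, ε (w (d.e (Sum.inl ⟨j, Fin.cast (Λ.dim_star (d.μ j)) a⟩))) =
        ∏ a, ε (w (d.e (Sum.inl ⟨j, a⟩))) :=
      Fintype.prod_equiv (finCongr (Λ.dim_star (d.μ j))) _ _ fun a => rfl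
    rw [h4] at h3
    change _ * _ = _ * C (d.μ j) at h3
    calc detOf (Λ.star (d.μ j)) (fun a => w (d.e (Sum.inl ⟨j, Fin.cast (Λ.dim_star (d.μ j)) a⟩))) =
        C (d.μ j) * (detOf (Λ.star (d.μ j))
          (fun a => w (d.e (Sum.inl ⟨j, Fin.cast (Λ.dim_star (d.μ j)) a⟩))) * C (d.μ j)) := by
          rw [mul_comm (detOf _ _), ← mul_assoc, hC, one_mul]
      _ = _ := by
          rw [← h3, h2]
          ring
  -- the pairs
  have h5 : ∀ q, pairOf ε (Λ.star (d.ν q)) (w (d.e (Sum.inr (q, 0)))) (w (d.e (Sum.inr (q, 1)))) =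
      (ε (w (d.e (Sum.inr (q, 0)))) * ε (w (d.e (Sum.inr (q, 1))))) *
        pairOf ε (d.ν q) (dual (w (d.e (Sum.inr (q, 0))))) (dual (w (d.e (Sum.inr (q, 1))))) := by
    intro q
    generalize w (d.e (Sum.inr (q, 0))) = x
    generalize w (d.e (Sum.inr (q, 1))) = y
    unfold pairOf
    have h6 : (dual x).1 = d.ν q ↔ x.1 = Λ.star (d.ν q) := by
      rw [dual_fst]
      constructor
      · intro h; rw [← h, Λ.star_star]
      · intro h; rw [h, Λ.star_star]
    have h7 : dual y = dual (dual x) ↔ y = dual x := by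
      constructor
      · intro h
        have := congrArg dual h
        rwa [dual_dual, dual_dual] at this
      · intro h; rw [h]
    by_cases ha : x.1 = Λ.star (d.ν q)
    · rw [if_pos ha, if_pos (h6.mpr ha)]
      by_cases hb : y = dual x
      · rw [if_pos hb, if_pos (h7.mpr hb), hb, mul_assoc, hsq, mul_one]
      · rw [if_neg hb, if_neg (fun h => hb (h7.mp h)), mul_zero]
    · rw [if_neg ha, if_neg (fun h => ha (h6.mp h)), mul_zero]
  -- the product of the signs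
  have h8 : ∏ k, ε (w k) = (∏ j, ∏ a, ε (w (d.e (Sum.inl ⟨j, a⟩)))) *
      ∏ q, (ε (w (d.e (Sum.inr (q, 0)))) * ε (w (d.e (Sum.inr (q, 1))))) := by
    rw [← d.e.prod_comp fun k => ε (w k), Fintype.prod_sum_type, Fintype.prod_sigma]
    congr 1
    rw [Fintype.prod_prod_type]
    exact prod_congr rfl fun q _ => by rw [Fin.prod_univ_two]
  unfold Data.val prodOf
  change (∏ j, detOf (Λ.star (d.μ j)) (fun a => w (d.e (Sum.inl ⟨j, Fin.cast (Λ.dim_star (d.μ j)) a⟩)))) *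
    (∏ q, pairOf ε (Λ.star (d.ν q)) (w (d.e (Sum.inr (q, 0)))) (w (d.e (Sum.inr (q, 1))))) = _
  rw [prod_congr rfl fun j _ => h1 j, prod_congr rfl fun q _ => h5 q, h8]
  simp only [prod_mul_distrib]
  ring

variable {κ : Type} [Fintype κ] [DecidableEq κ] {W : Type} [AddCommGroup W] [Module ℂ W]

/-- The intersection numbers on the product, given by those on `Z` and the pairings of the letters. -/
noncomputable def degX [Fintype I] (ε : Letter Λ → ℂ) (deg : W →ₗ[ℂ] W →ₗ[ℂ] ℂ) :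
    ((κ → Letter Λ) → W) →ₗ[ℂ] ((κ → Letter Λ) → W) →ₗ[ℂ] ℂ :=
  LinearMap.mk₂ ℂ (fun x y => ∑ w, (∏ k, ε (w k)) * deg (x w) (y fun k => dual (w k)))
    (fun x x' y => by
      simp only [Pi.add_apply, map_add, LinearMap.add_apply, mul_add, sum_add_distrib])
    (fun a x y => by
      simp only [Pi.smul_apply, map_smul, LinearMap.smul_apply, smul_eq_mul, mul_sum]
      exact sum_congr rfl fun w _ => by ring)
    (fun x y y' => by
      simp only [Pi.add_apply, map_add, mul_add, sum_add_distrib])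
    (fun a x y => by
      simp only [Pi.smul_apply, map_smul, smul_eq_mul, mul_sum]
      exact sum_congr rfl fun w _ => by ring)

omit [DecidableEq I] in
lemma degX_apply [Fintype I] (deg : W →ₗ[ℂ] W →ₗ[ℂ] ℂ) (x y : (κ → Letter Λ) → W) :
    degX ε deg x y = ∑ w, (∏ k, ε (w k)) * deg (x w) (y fun k => dual (w k)) := rfl

/-- the product of numbers which depend on the labels is constant on the words of a product -/
lemma Data.prod_label (d : Data Λ κ) (η : I → ℂ) (w : κ → Letter Λ) :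
    d.val ε w * ∏ k, η (w k).1 = d.val ε w *
      ((∏ j, ∏ _b : Fin (Λ.dim (d.μ j)), η (d.μ j)) * ∏ q, (η (d.ν q) * η (Λ.star (d.ν q)))) := by
  have h8 : ∏ k, η (w k).1 = (∏ j, ∏ a, η (w (d.e (Sum.inl ⟨j, a⟩))).1) *
      ∏ q, (η (w (d.e (Sum.inr (q, 0)))).1 * η (w (d.e (Sum.inr (q, 1)))).1) := by
    rw [← d.e.prod_comp fun k => η (w k).1, Fintype.prod_sum_type, Fintype.prod_sigma]
    congr 1
    rw [Fintype.prod_prod_type]
    exact prod_congr rfl fun q _ => by rw [Fin.prod_univ_two]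
  have h1 : ∀ j, (detOf (d.μ j) fun a => w (d.e (Sum.inl ⟨j, a⟩))) *
      (∏ a, η (w (d.e (Sum.inl ⟨j, a⟩))).1) = (detOf (d.μ j) fun a => w (d.e (Sum.inl ⟨j, a⟩))) *
      ∏ _b : Fin (Λ.dim (d.μ j)), η (d.μ j) := fun j =>
    detOf_mul_prod (d.μ j) (fun x => η x.1) fun a => w (d.e (Sum.inl ⟨j, a⟩))
  have h2 : ∀ q, pairOf ε (d.ν q) (w (d.e (Sum.inr (q, 0)))) (w (d.e (Sum.inr (q, 1)))) *
      (η (w (d.e (Sum.inr (q, 0)))).1 * η (w (d.e (Sum.inr (q, 1)))).1) =
      pairOf ε (d.ν q) (w (d.e (Sum.inr (q, 0)))) (w (d.e (Sum.inr (q, 1)))) *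
      (η (d.ν q) * η (Λ.star (d.ν q))) := by
    intro q
    unfold pairOf
    split_ifs with h3 h4
    · rw [h4, dual_fst, h3]
    · rw [zero_mul, zero_mul]
    · rw [zero_mul, zero_mul]
  have h4 : (∏ j, detOf (d.μ j) fun a => w (d.e (Sum.inl ⟨j, a⟩))) *
      (∏ j, ∏ a, η (w (d.e (Sum.inl ⟨j, a⟩))).1) =
      (∏ j, detOf (d.μ j) fun a => w (d.e (Sum.inl ⟨j, a⟩))) *
      ∏ j, ∏ _b : Fin (Λ.dim (d.μ j)), η (d.μ j) := by
    rw [← prod_mul_distrib, ← prod_mul_distrib]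
    exact prod_congr rfl fun j _ => h1 j
  have h5 : (∏ q, pairOf ε (d.ν q) (w (d.e (Sum.inr (q, 0)))) (w (d.e (Sum.inr (q, 1))))) *
      (∏ q, (η (w (d.e (Sum.inr (q, 0)))).1 * η (w (d.e (Sum.inr (q, 1)))).1)) =
      (∏ q, pairOf ε (d.ν q) (w (d.e (Sum.inr (q, 0)))) (w (d.e (Sum.inr (q, 1))))) *
      ∏ q, (η (d.ν q) * η (Λ.star (d.ν q))) := by
    rw [← prod_mul_distrib, ← prod_mul_distrib]
    exact prod_congr rfl fun q _ => h2 q
  rw [h8]
  unfold Data.val prodOf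
  generalize (∏ j, detOf (d.μ j) fun a => w (d.e (Sum.inl ⟨j, a⟩))) = A at h4 ⊢
  generalize (∏ j, ∏ a, η (w (d.e (Sum.inl ⟨j, a⟩))).1) = B at h4 ⊢
  generalize (∏ j, ∏ _b : Fin (Λ.dim (d.μ j)), η (d.μ j)) = C at h4 ⊢
  generalize (∏ q, pairOf ε (d.ν q) (w (d.e (Sum.inr (q, 0)))) (w (d.e (Sum.inr (q, 1))))) = P at h5 ⊢
  generalize (∏ q, (η (w (d.e (Sum.inr (q, 0)))).1 * η (w (d.e (Sum.inr (q, 1)))).1)) = Q at h5 ⊢
  generalize (∏ q, (η (d.ν q) * η (Λ.star (d.ν q)))) = D at h5 ⊢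
  linear_combination (P * Q) * h4 + (A * C) * h5

/-- the intersection number with an external product is the intersection number of a contraction -/
theorem degX_ext [Fintype I] (hε1 : ∀ x, ε x = 1 ∨ ε x = -1) {η : I → ℂ} (hη0 : ∀ i, η i ≠ 0)
    (hη : ∀ x, ε x * ε (dual x) = η x.1)
    (d : Data Λ κ) : ∃ c : ℂ, c ≠ 0 ∧ ∀ (deg : W →ₗ[ℂ] W →ₗ[ℂ] ℂ) (x : (κ → Letter Λ) → W) (z : W),
      degX ε deg x (fun w => d.star.val ε w • z) = c * deg (contract (d.val ε) x) z := by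
  obtain ⟨c, hc, h⟩ := d.star_val hε1
  refine ⟨c * ((∏ j, ∏ _b : Fin (Λ.dim (d.μ j)), η (d.μ j)) *
    ∏ q, (η (d.ν q) * η (Λ.star (d.ν q)))), mul_ne_zero hc (mul_ne_zero
    (prod_ne_zero_iff.mpr fun j _ => prod_ne_zero_iff.mpr fun _ _ => hη0 _)
    (prod_ne_zero_iff.mpr fun q _ => mul_ne_zero (hη0 _) (hη0 _))), fun deg x z => ?_⟩
  rw [degX_apply]
  unfold contract
  rw [map_sum, LinearMap.sum_apply, mul_sum]
  refine sum_congr rfl fun w _ => ?_
  rw [h, map_smul, map_smul, smul_eq_mul, LinearMap.smul_apply, smul_eq_mul]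
  have h1 : (fun k => dual (dual (w k))) = w := funext fun k => dual_dual (w k)
  have h2 : (∏ k, ε (w k)) * ∏ k, ε (dual (w k)) = ∏ k, η (w k).1 := by
    rw [← prod_mul_distrib, prod_congr rfl fun k _ => hη (w k)]
  have h3 := d.prod_label (ε := ε) η w
  rw [← h2] at h3
  rw [h1]
  linear_combination (c * deg (x w) z) * h3

end Pool.Agent.Q59.LI
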