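import Pool.Agent.Q59.LI.Equi

/-!
# Coordinates of flat tensors whose contractions are algebraic
-/

namespace Pool.Agent.Q59.LI

open Finset Pool.Agent.Q59.LS

variable {I : Type} {Λ : Labels I} [DecidableEq I] [Fintype I] {ε : Letter Λ → ℂ}

variable {κ : Type} [Fintype κ] [DecidableEq κ] {W : Type} [AddCommGroup W] [Module ℂ W]

/-- Let `x` be a combination of products `b • z` with data satisfying `P`, where `P` implies that `z` is in
`B` and that the data satisfy `Q`. If all contractions of `x` with products satisfying `Q` are in `A`, and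
`x` has values in `C`, then `x` is a combination of products with `z` in `A`, `B` and `C`. -/
theorem contract_coords (hre : ∀ x, (starRingEnd ℂ) (ε x) = ε x) {Q : Data Λ κ → Prop}
    {A B C : Submodule ℂ W} {P : ∀ l : ℕ, (Fin l → I) → W → Prop}
    (hP : ∀ (d' : Data Λ κ) (z : W), P d'.l d'.μ z → z ∈ B ∧ (Q d' ∨ z = 0))
    {x : (κ → Letter Λ) → W} (hx : x ∈ spanZ P ε κ)
    (hA : ∀ d : Data Λ κ, Q d → contract (d.val ε) x ∈ A) (hC : ∀ w, x w ∈ C) :
    ∃ (n : ℕ) (d : Fin n → Data Λ κ) (z : Fin n → W), (∀ j, Q (d j)) ∧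
      (∀ j, z j ∈ A ∧ z j ∈ B ∧ z j ∈ C) ∧ x = ∑ j, fun w => (d j).val ε w • z j := by
  obtain ⟨n, d, hd, hQ, hspan⟩ := exists_data_basis (κ := κ) ε Q
  obtain ⟨z, hzB, hz⟩ := exists_coords (A := B) hspan (P := P) hP hx
  refine ⟨n, d, z, hQ, fun j => ⟨?_, hzB j, ?_⟩, hz⟩
  · refine mem_of_contract hd (fun j w => prodOf_real hre _ _ _ w) (A := A) (z := z) (fun k => ?_) j
    rw [← hz]
    exact hA _ (hQ k)
  · obtain ⟨c, hc⟩ := exists_coord hd
    have h1 : z j = ∑ w, c j w • x w := by
      rw [hz]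
      simp only [Finset.sum_apply, smul_sum, smul_smul]
      rw [sum_comm]
      simp only [← sum_smul]
      rw [sum_eq_single j]
      · rw [hc, if_pos rfl, one_smul]
      · intro k _ hk
        rw [hc, if_neg (Ne.symm hk), zero_smul]
      · intro h; exact absurd (mem_univ j) h
    rw [h1]
    exact Submodule.sum_mem _ fun w _ => Submodule.smul_mem _ _ (hC w)

end Pool.Agent.Q59.LI
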