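import Pool.Agent.Q59.LI.Symp

/-!
# Euler factors and orders of poles on the product
-/

namespace Pool.Agent.Q59.LI

open Finset Filter Topology Pool.Agent.Q59.LS

variable {I : Type} {Λ : Labels I} [DecidableEq I] [Fintype I] {ε : Letter Λ → ℂ}
  {κ : Type} [Fintype κ] [DecidableEq κ] {W : Type} [AddCommGroup W] [Module ℂ W]

omit [DecidableEq I] in
/-- the operator in coordinates, with different factors -/
lemma theta_comb_gen {n : ℕ} {b : Fin n → (κ → Letter Λ) → ℂ} {g : Matrix (Letter Λ) (Letter Λ) ℂ}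
    {ψ : Fin n → ℂ} (hψ : ∀ j w, act g (b j) w = ψ j * b j w) (ρ : W →ₗ[ℂ] W) (z : Fin n → W) :
    theta κ g ρ (comb b z) = comb b fun j => (ψ j • ρ) (z j) := by
  funext w
  change ρ (actW g (∑ j, fun w => b j w • z j) w) = (∑ j, fun w => b j w • (ψ j • ρ) (z j)) w
  rw [actW_sum_smul, map_sum, Finset.sum_apply]
  refine sum_congr rfl fun j _ => ?_
  rw [map_smul, hψ, LinearMap.smul_apply, smul_smul, mul_comm]

/-- **The Euler factors.** The invariants of `D` are stable, and the determinant of `1 - t γ` on them is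
the product over a basis of products. -/
theorem det_invariants (hε : ∀ x : Letter Λ, ¬ Λ.orth x.1 = true → ε (dual x) = -ε x)
    (hε0 : ∀ x, ε x ≠ 0) {n : ℕ} {d : Fin n → Data Λ κ}
    (hd : LinearIndependent ℂ (fun j => (d j).val ε))
    (hall : ∀ x ∈ invariants ε κ W, ∃ z : Fin n → W, x = comb (fun j => (d j).val ε) z)
    [Module.Finite ℂ W] {g : Matrix (Letter Λ) (Letter Λ) ℂ} {χ : ℂ} {δ : I → ℂ}
    (hg : IsSimilitude ε χ δ g) (ρ : W →ₗ[ℂ] W) :
    ∃ stab : ∀ x ∈ invariants ε κ W, theta κ g ρ x ∈ invariants ε κ W, ∀ t : ℂ,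
      LinearMap.det (LinearMap.id - t • (theta κ g ρ).restrict stab) =
        ∏ j, LinearMap.det (LinearMap.id - t • ((∏ i, δ ((d j).μ i)) * χ ^ (d j).p) • ρ) := by
  let ψ : Fin n → ℂ := fun j => (∏ i, δ ((d j).μ i)) * χ ^ (d j).p
  have hψ : ∀ j w, act g ((d j).val ε) w = ψ j * (d j).val ε w := fun j w => act_prodOf hg _ _ _ w
  have hth : ∀ z : Fin n → W, theta κ g ρ (comb (fun j => (d j).val ε) z) =
      comb (fun j => (d j).val ε) fun j => (ψ j • ρ) (z j) := fun z => theta_comb_gen hψ ρ z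
  have stab : ∀ x ∈ invariants ε κ W, theta κ g ρ x ∈ invariants ε κ W := by
    intro x hx
    obtain ⟨z, rfl⟩ := hall x hx
    rw [hth]
    exact comb_mem_invariants hε hε0 d _
  refine ⟨stab, fun t => ?_⟩
  let f : (Fin n → W) →ₗ[ℂ] invariants ε κ W :=
    LinearMap.codRestrict _ (comb (W := W) fun j => (d j).val ε) fun z => comb_mem_invariants hε hε0 d z
  let e : (Fin n → W) ≃ₗ[ℂ] invariants ε κ W := LinearEquiv.ofBijective f
    ⟨fun z z' h => comb_injective hd (congrArg Subtype.val h), fun x => by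
      obtain ⟨z, hz⟩ := hall x.1 x.2
      exact ⟨z, Subtype.ext hz.symm⟩⟩
  have h1 : LinearMap.id - t • (theta κ g ρ).restrict stab =
      e.toLinearMap ∘ₗ (LinearMap.pi fun j => (LinearMap.id - t • (ψ j • ρ)) ∘ₗ LinearMap.proj j) ∘ₗ
        e.symm.toLinearMap := by
    refine LinearMap.ext fun x => ?_
    obtain ⟨z, rfl⟩ := e.surjective x
    rw [LinearMap.comp_apply, LinearMap.comp_apply]
    have h2 : e.symm.toLinearMap (e z) = z := e.symm_apply_apply z
    rw [h2]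
    apply Subtype.ext
    have h3 : ((e z : invariants ε κ W) : (κ → Letter Λ) → W) = comb (fun j => (d j).val ε) z := rfl
    change ((e z : invariants ε κ W) : (κ → Letter Λ) → W) - t • theta κ g ρ (e z : invariants ε κ W) =
      comb (fun j => (d j).val ε) fun j => (LinearMap.id - t • (ψ j • ρ) : W →ₗ[ℂ] W) (z j)
    rw [h3, hth]
    have h4 : (fun j => (LinearMap.id - t • (ψ j • ρ) : W →ₗ[ℂ] W) (z j)) =
        z - t • fun j => (ψ j • ρ) (z j) := by
      funext j
      rfl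
    rw [h4, map_sub, map_smul]
  rw [h1, LinearMap.det_conj, LinearMap.det_pi]

/-- `(s - s₀) ^ r L (s)` has a nonzero limit for `s → s₀`, `s > s₀` -/
def HasPole (L : ℝ → ℂ) (s₀ : ℝ) (r : ℕ) : Prop :=
  ∃ c : ℂ, c ≠ 0 ∧ Tendsto (fun s : ℝ => ((s - s₀ : ℝ) : ℂ) ^ r * L s) (𝓝[>] s₀) (𝓝 c)

lemma HasPole.congr {L L' : ℝ → ℂ} {s₀ : ℝ} {r : ℕ} (h : HasPole L s₀ r)
    (hL : ∀ s > s₀, L s = L' s) : HasPole L' s₀ r := by
  obtain ⟨c, hc, h1⟩ := h
  refine ⟨c, hc, h1.congr' ?_⟩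
  filter_upwards [self_mem_nhdsWithin] with s hs
  rw [hL s hs]

lemma HasPole.mul {L L' : ℝ → ℂ} {s₀ : ℝ} {r r' : ℕ} (h : HasPole L s₀ r) (h' : HasPole L' s₀ r') :
    HasPole (fun s => L s * L' s) s₀ (r + r') := by
  obtain ⟨c, hc, h1⟩ := h
  obtain ⟨c', hc', h1'⟩ := h'
  refine ⟨c * c', mul_ne_zero hc hc', (h1.mul h1').congr fun s => ?_⟩
  rw [pow_add]
  ring

lemma HasPole.prod {J : Type} (A : Finset J) {L : J → ℝ → ℂ} {s₀ : ℝ} {r : J → ℕ}
    (h : ∀ j ∈ A, HasPole (L j) s₀ (r j)) : HasPole (fun s => ∏ j ∈ A, L j s) s₀ (∑ j ∈ A, r j) := by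
  classical
  induction A using Finset.induction_on with
  | empty =>
    refine ⟨1, one_ne_zero, ?_⟩
    simp only [sum_empty, pow_zero, prod_empty, mul_one]
    exact tendsto_const_nhds
  | insert j A hj ih =>
    have h1 := (h j (mem_insert_self _ _)).mul (ih fun i hi => h i (mem_insert_of_mem hi))
    rw [sum_insert hj]
    exact h1.congr fun s _ => by rw [prod_insert hj]

end Pool.Agent.Q59.LI
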