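import Pool.Agent.Q59.LI.Dual
import Pool.Agent.Q59.LI.Symp

/-!
# Numerically trivial classes on the product
-/

namespace Pool.Agent.Q59.LI

open Finset Pool.Agent.Q59.LS

section linear

variable {V : Type} [AddCommGroup V] [Module ℂ V]

/-- The elements of `B` which are orthogonal to `B`. -/
def numTrivial (R : Subfield ℂ) (deg : V →ₗ[ℂ] V →ₗ[ℂ] ℂ) (B : Submodule R V) : Submodule R V where
  carrier := {x | x ∈ B ∧ ∀ y ∈ B, deg x y = 0}
  zero_mem' := ⟨Submodule.zero_mem _, fun a _ => by rw [map_zero, LinearMap.zero_apply]⟩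
  add_mem' := fun h h' => ⟨Submodule.add_mem _ h.1 h'.1, fun a ha => by
    rw [map_add, LinearMap.add_apply, h.2 a ha, h'.2 a ha, add_zero]⟩
  smul_mem' := fun r x h => ⟨Submodule.smul_mem _ _ h.1, fun a ha => by
    have h1 : r • x = (r : ℂ) • x := rfl
    rw [h1, map_smul, LinearMap.smul_apply, h.2 a ha, smul_zero]⟩

lemma mem_numTrivial {R : Subfield ℂ} {deg : V →ₗ[ℂ] V →ₗ[ℂ] ℂ} {B : Submodule R V} {x : V} :
    x ∈ numTrivial R deg B ↔ x ∈ B ∧ ∀ y ∈ B, deg x y = 0 := Iff.rfl

/-- The elements of `A` orthogonal to `A` vanish. -/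
def Nondeg (deg : V →ₗ[ℂ] V →ₗ[ℂ] ℂ) (A : AddSubgroup V) : Prop :=
  ∀ a ∈ A, (∀ b ∈ A, deg a b = 0) → a = 0

lemma nondeg_field {R : Subfield ℂ} {deg : V →ₗ[ℂ] V →ₗ[ℂ] ℂ} {A : AddSubgroup V}
    (hint : ∀ a ∈ A, ∀ b ∈ A, ∃ m : ℤ, deg a b = m) (h : Nondeg deg A) :
    ∀ x ∈ numTrivial R deg (Submodule.span R (A : Set V)), x = 0 := by
  have key : ∀ (k : ℕ) (r : Fin k → R) (a : Fin k → V), (∀ i, a i ∈ A) →
      (∀ b ∈ A, deg (∑ i, r i • a i) b = 0) → ∑ i, r i • a i = 0 := by
    intro k
    induction k with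
    | zero => intro r a _ _; simp
    | succ k ih =>
      intro r a ha hb
      by_cases h0 : a 0 = 0
      · rw [Fin.sum_univ_succ, h0, smul_zero, zero_add] at hb ⊢
        exact ih _ _ (fun i => ha _) hb
      · have h1 : ∃ b ∈ A, deg (a 0) b ≠ 0 := by
          by_contra hcon
          push Not at hcon
          exact h0 (h _ (ha 0) hcon)
        obtain ⟨b, hbA, hb0⟩ := h1
        choose q hq using fun i => hint (a i) (ha i) b hbA
        have hq0 : q 0 ≠ 0 := by
          intro h2
          rw [hq 0, h2] at hb0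
          simp at hb0
        have hsm : ∀ (r : R) (v : V), r • v = (r : ℂ) • v := fun _ _ => rfl
        have hqs : ∀ (c : ℤ) (v : V), c • v = (c : ℂ) • v := fun c v => by
          rw [Int.cast_smul_eq_zsmul]
        have h8 : (q 0 : ℂ) ≠ 0 := by exact_mod_cast hq0
        -- the coefficient of `a 0`
        have h3 : (r 0 : ℂ) * q 0 + ∑ i : Fin k, (r i.succ : ℂ) * q i.succ = 0 := by
          have h4 := hb b hbA
          rw [Fin.sum_univ_succ, map_add, LinearMap.add_apply, map_sum, LinearMap.sum_apply, hsm,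
            map_smul, LinearMap.smul_apply, smul_eq_mul, hq] at h4
          rw [← h4]
          congr 1
          exact sum_congr rfl fun i _ => by
            rw [hsm, map_smul, LinearMap.smul_apply, smul_eq_mul, hq]
        have h5 : ∑ i, r i • a i =
            ∑ i : Fin k, (r i.succ * (q 0 : R)⁻¹) • (q 0 • a i.succ - q i.succ • a 0) := by
          rw [Fin.sum_univ_succ]
          simp only [smul_sub, sum_sub_distrib]
          have h6 : r 0 • a 0 = - ∑ i : Fin k, (r i.succ * (q 0 : R)⁻¹) • q i.succ • a 0 := by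
            have h7 : (r 0 : ℂ) = - ∑ i : Fin k, (r i.succ : ℂ) * (q 0 : ℂ)⁻¹ * (q i.succ : ℂ) := by
              have h9 : ∑ i : Fin k, (r i.succ : ℂ) * (q 0 : ℂ)⁻¹ * (q i.succ : ℂ) =
                  (∑ i : Fin k, (r i.succ : ℂ) * q i.succ) / q 0 := by
                rw [sum_div]
                exact sum_congr rfl fun i _ => by ring
              rw [h9, eq_comm, neg_eq_iff_eq_neg, div_eq_iff h8]
              linear_combination h3
            rw [hsm, h7, neg_smul, sum_smul]
            congr 1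
            refine sum_congr rfl fun i _ => ?_
            rw [hqs, hsm, smul_smul]
            push_cast
            rfl
          have h10 : ∑ i : Fin k, r i.succ • a i.succ =
              ∑ i : Fin k, (r i.succ * (q 0 : R)⁻¹) • q 0 • a i.succ := by
            refine sum_congr rfl fun i _ => ?_
            rw [hqs, hsm, hsm, smul_smul]
            congr 1
            push_cast
            rw [mul_assoc, inv_mul_cancel₀ h8, mul_one]
          rw [h6, h10]
          abel
        rw [h5] at hb ⊢
        exact ih _ _ (fun i => AddSubgroup.sub_mem _ (AddSubgroup.zsmul_mem _ (ha _) _)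
          (AddSubgroup.zsmul_mem _ (ha _) _)) hb
  rintro x ⟨hx, hx2⟩
  obtain ⟨k, r, a, rfl⟩ := Submodule.mem_span_set'.mp hx
  exact key k r (fun i => (a i : V)) (fun i => (a i).2) fun b hb =>
    hx2 b (Submodule.subset_span hb)

end linear

variable {I : Type} {Λ : Labels I} [DecidableEq I] [Fintype I] {ε : Letter Λ → ℂ}
  {κ : Type} [Fintype κ] [DecidableEq κ] {W : Type} [AddCommGroup W] [Module ℂ W]

/-- **Numerically trivial classes in coordinates.** -/
theorem num_coords (hε1 : ∀ x, ε x = 1 ∨ ε x = -1) {η : I → ℂ} (hη0 : ∀ i, η i ≠ 0)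
    (hη : ∀ x, ε x * ε (dual x) = η x.1)
    {n : ℕ} {d : Fin n → Data Λ κ} (hd : LinearIndependent ℂ (fun j => (d j).val ε))
    {R : Subfield ℂ} {deg : W →ₗ[ℂ] W →ₗ[ℂ] ℂ} {BZ : Submodule R W}
    {BX : Submodule R ((κ → Letter Λ) → W)}
    (hext : ∀ j, ∀ z ∈ BZ, (fun w => (d j).val ε w • z) ∈ BX)
    (hext2 : ∀ j, ∀ z ∈ BZ, (fun w => (d j).star.val ε w • z) ∈ BX)
    (hcon : ∀ j, ∀ x ∈ BX, contract ((d j).val ε) x ∈ BZ)
    (hsp : ∀ x ∈ BX, ∃ z : Fin n → W, x = comb (fun j => (d j).val ε) z) :
    ∀ z : Fin n → W, comb (fun j => (d j).val ε) z ∈ numTrivial R (degX ε deg) BX ↔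
      ∀ j, z j ∈ numTrivial R deg BZ := by
  classical
  let b : Fin n → (κ → Letter Λ) → ℂ := fun j => (d j).val ε
  refine fun z => ⟨fun hz j => ?_, fun hz => ?_⟩
  · obtain ⟨hz1, hz2⟩ := mem_numTrivial.mp hz
    refine mem_numTrivial.mpr ⟨?_, fun a ha => ?_⟩
    · exact mem_of_contract_field hd (fun j w => val_int hε1 (d j) w) R
        (fun k => hcon k _ hz1) j
    · -- the contractions are orthogonal to `a`
      have h1 : ∀ k, deg (contract (b k) (comb (W := W) b z)) a = 0 := by
        intro k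
        obtain ⟨c, hc, hck⟩ := degX_ext (W := W) hε1 hη0 hη (d k)
        have h2 := hck deg (comb (W := W) b z) a
        rw [hz2 _ (hext2 k a ha)] at h2
        exact (mul_eq_zero.mp h2.symm).resolve_left hc
      have h3 : z j ∈ LinearMap.ker (deg.flip a) := by
        refine mem_of_contract hd (fun j w => ?_) (A := LinearMap.ker (deg.flip a)) (z := z)
          (fun k => ?_) j
        · obtain ⟨m, hm⟩ := val_int hε1 (d j) w
          rw [hm]
          simp
        · rw [LinearMap.mem_ker, LinearMap.flip_apply]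
          exact h1 k
      rw [LinearMap.mem_ker, LinearMap.flip_apply] at h3
      exact h3
  · refine mem_numTrivial.mpr ⟨?_, fun y hy => ?_⟩
    · rw [comb_apply]
      exact Submodule.sum_mem _ fun j _ => hext j _ (mem_numTrivial.mp (hz j)).1
    · obtain ⟨u, hu⟩ := hsp y hy
      have hu2 : ∀ k, u k ∈ BZ := by
        intro k
        refine mem_of_contract_field hd (fun j w => val_int hε1 (d j) w) R (fun i => ?_) k
        have h1 := hcon i y hy
        rw [hu] at h1
        exact h1
      rw [hu, degX_apply]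
      refine sum_eq_zero fun w _ => ?_
      have h2 : ∀ k j, deg ((d k).val ε w • z k) ((d j).val ε (fun k => dual (w k)) • u j) = 0 := by
        intro k j
        rw [map_smul, map_smul, LinearMap.smul_apply,
          (mem_numTrivial.mp (hz k)).2 _ (hu2 j), smul_zero, smul_zero]
      rw [comb_apply, comb_apply, Finset.sum_apply, Finset.sum_apply]
      have h3 : (deg (∑ k, (d k).val ε w • z k)) (∑ j, (d j).val ε (fun k => dual (w k)) • u j) = 0 := by
        rw [map_sum, map_sum]
        refine sum_eq_zero fun j _ => ?_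
        rw [LinearMap.sum_apply]
        exact sum_eq_zero fun k _ => h2 k j
      rw [h3, mul_zero]

end Pool.Agent.Q59.LI
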