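import Pool.Agent.Q59.LI.Flat

/-!
# Products of pairings; reflections
-/

namespace Pool.Agent.Q59.LI

open Finset Pool.Agent.Q59.LS

variable {I : Type} {Λ : Labels I} {ε : Letter Λ → ℂ}

variable {κ : Type} {W : Type} [AddCommGroup W] [Module ℂ W]

/-- A product of pairings, put in an arbitrary order by `e`. -/
noncomputable def pairsOf [DecidableEq I] (ε : Letter Λ → ℂ) {p : ℕ} (ν : Fin p → I)
    (e : Fin p × Fin 2 ≃ κ) (w : κ → Letter Λ) : ℂ :=
  ∏ q, pairOf ε (ν q) (w (e (q, 0))) (w (e (q, 1)))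

/-- The products of a product of pairings with an element `z` of `W` which satisfies `P`. -/
noncomputable def spanP [DecidableEq I] (P : W → Prop) (ε : Letter Λ → ℂ) (κ : Type) :
    Submodule ℂ ((κ → Letter Λ) → W) :=
  Submodule.span ℂ {y | ∃ (p : ℕ) (ν : Fin p → I) (e : Fin p × Fin 2 ≃ κ) (z : W),
    P z ∧ y = fun w => pairsOf ε ν e w • z}

/-- the equivalence of the index sets if there are no determinants -/
def noDet {p : ℕ} (μ : Fin 0 → I) : (Σ j : Fin 0, Fin (Λ.dim (μ j))) ⊕ (Fin p × Fin 2) ≃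
    Fin p × Fin 2 := Equiv.emptySum _ _

lemma prodOf_noDet [DecidableEq I] {p : ℕ} (μ : Fin 0 → I) (ν : Fin p → I)
    (e : (Σ j : Fin 0, Fin (Λ.dim (μ j))) ⊕ (Fin p × Fin 2) ≃ κ) :
    prodOf ε μ ν e = pairsOf ε ν ((noDet (Λ := Λ) μ).symm.trans e) := by
  funext w
  unfold prodOf pairsOf
  rw [Fin.prod_univ_zero, one_mul]
  rfl

lemma pairsOf_eq [DecidableEq I] {p : ℕ} (ν : Fin p → I) (e : Fin p × Fin 2 ≃ κ) :
    pairsOf ε ν e = prodOf ε (Fin.elim0 : Fin 0 → I) ν ((noDet (Λ := Λ) _).trans e) := by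
  rw [prodOf_noDet]
  rfl

/-- products without determinants -/
lemma spanZ_le_spanP [DecidableEq I] {P : W → Prop} :
    spanZ (fun l _ z => l = 0 ∧ P z) ε κ ≤ spanP P ε κ := by
  refine Submodule.span_le.mpr ?_
  rintro y ⟨l, p, μ, ν, e, z, ⟨rfl, hz⟩, rfl⟩
  refine Submodule.subset_span ⟨p, ν, (noDet (Λ := Λ) μ).symm.trans e, z, hz, ?_⟩
  rw [prodOf_noDet]

/-- A linear map of `H` which preserves the subspaces `V_k` and the pairings, and has the determinant
`-1` on `V_i` and `1` on the other orthogonal `V_k`. -/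
structure IsReflection [DecidableEq I] [Fintype I] (ε : Letter Λ → ℂ) (i : I)
    (g : Matrix (Letter Λ) (Letter Λ) ℂ) : Prop where
  block : ∀ x y, x.1 ≠ y.1 → g x y = 0
  form : g * form ε * g.transpose = form ε
  det : (Matrix.of fun a b : Fin (Λ.dim i) => g ⟨i, a⟩ ⟨i, b⟩).det = -1
  det_of_ne : ∀ k, Λ.orth k = true → k ≠ i →
    (Matrix.of fun a b : Fin (Λ.dim k) => g ⟨k, a⟩ ⟨k, b⟩).det = 1

variable [DecidableEq I] [Fintype I] [Fintype κ] [DecidableEq κ]

/-- Tensors which are fixed by reflections of all the orthogonal `V_i` need no determinants. -/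
theorem no_dets {B : Submodule ℂ W} {x : (κ → Letter Λ) → W}
    (hx : x ∈ spanZ (fun _ μ z => z ∈ B ∧ (Reduced Λ μ ∧ ∀ k, Λ.orth (μ k) = true)) ε κ)
    (hr : ∀ i, Λ.orth i = true → 0 < Λ.dim i → ∃ g, IsReflection ε i g ∧ actW g x = x) :
    x ∈ spanZ (fun l _ z => l = 0 ∧ z ∈ B) ε κ := by
  obtain ⟨n, d, hd, hQ, hspan⟩ := exists_data_basis (κ := κ) ε
    fun d : Data Λ κ => Reduced Λ d.μ ∧ ∀ k, Λ.orth (d.μ k) = true
  obtain ⟨z, hzB, hz⟩ := exists_coords (A := B) hspan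
    (P := fun _ μ z => z ∈ B ∧ (Reduced Λ μ ∧ ∀ k, Λ.orth (μ k) = true))
    (fun d' z h => ⟨h.1, Or.inl h.2⟩) hx
  -- coordinates at products with determinants vanish
  have h0 : ∀ j, (d j).l ≠ 0 → z j = 0 := by
    intro j hj
    let k0 : Fin (d j).l := ⟨0, Nat.pos_of_ne_zero hj⟩
    obtain ⟨g, hg, hgx⟩ := hr ((d j).μ k0) ((hQ j).2 k0) ((hQ j).1.pos k0)
    let δ : I → ℂ := fun i => (Matrix.of fun a b : Fin (Λ.dim i) => g ⟨i, a⟩ ⟨i, b⟩).det
    have hsim : IsSimilitude ε 1 δ g := ⟨hg.block, by rw [one_smul]; exact hg.form, fun _ => rfl⟩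
    have h1 := coord_fixed hd (g := g) (ψ := fun j => (∏ i, δ ((d j).μ i)) * 1 ^ (d j).p)
      (fun j w => act_prodOf hsim _ _ _ w) LinearMap.id (z := z) (fun w => ?_) j
    · have h2 : ∏ i, δ ((d j).μ i) = -1 := by
        rw [← mul_prod_erase univ _ (mem_univ k0), prod_eq_one fun i hi => ?_, mul_one]
        · exact hg.det
        · refine hg.det_of_ne _ ((hQ j).2 i) fun h => ?_
          exact ne_of_mem_erase hi ((hQ j).1.orth i k0 ((hQ j).2 i) h)
      rw [h2, one_pow, mul_one, LinearMap.id_apply, neg_smul, one_smul] at h1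
      have h3 : (2 : ℂ) • z j = 0 := by
        rw [two_smul]
        nth_rewrite 1 [← h1]
        exact neg_add_cancel _
      exact (smul_eq_zero.mp h3).resolve_left two_ne_zero
    · rw [← hz, hgx]
      rfl
  rw [hz]
  refine Submodule.sum_mem _ fun j _ => ?_
  by_cases hj : (d j).l = 0
  · exact Submodule.subset_span ⟨(d j).l, (d j).p, (d j).μ, (d j).ν, (d j).e, z j, ⟨hj, hzB j⟩, rfl⟩
  · rw [h0 j hj]
    have h1 : (fun w => (d j).val ε w • (0 : W)) = 0 := by funext w; simp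
    rw [h1]
    exact Submodule.zero_mem _

/-- coordinates of tensors all of whose contractions with products of pairings are in `A` -/
theorem pairs_coords (hre : ∀ x, (starRingEnd ℂ) (ε x) = ε x) {A B C : Submodule ℂ W}
    {x : (κ → Letter Λ) → W} (hx : x ∈ spanZ (fun l _ z => l = 0 ∧ z ∈ B) ε κ)
    (hA : ∀ (p : ℕ) (ν : Fin p → I) (e : Fin p × Fin 2 ≃ κ), contract (pairsOf ε ν e) x ∈ A)
    (hC : ∀ w, x w ∈ C) : x ∈ spanP (fun z => z ∈ A ∧ z ∈ B ∧ z ∈ C) ε κ := by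
  have hA' : ∀ d : Data Λ κ, d.l = 0 → contract (d.val ε) x ∈ A := by
    rintro ⟨l, p, μ, ν, e⟩ hl
    obtain rfl : l = 0 := hl
    change contract (prodOf ε μ ν e) x ∈ A
    rw [prodOf_noDet]
    exact hA _ _ _
  obtain ⟨n, d, z, hQ, hz, hxz⟩ := contract_coords (Λ := Λ) (κ := κ)
    hre (Q := fun d => d.l = 0) (A := A) (B := B) (C := C)
    (P := fun l _ z => l = 0 ∧ z ∈ B) (fun d' z h => ⟨h.2, Or.inl h.1⟩) hx hA' hC
  refine spanZ_le_spanP ?_
  rw [hxz]
  exact Submodule.sum_mem _ fun j _ => Submodule.subset_span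
    ⟨(d j).l, (d j).p, (d j).μ, (d j).ν, (d j).e, z j, ⟨hQ j, hz j⟩, rfl⟩

end Pool.Agent.Q59.LI
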